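import Pool.Agent.DynBal.Main

/-!
# Dynamic vector balancing against adaptive adversaries with bounded coordinate energies

For every `n`, `T` and all bounds `r i ≥ 1` there is a deterministic online algorithm which,
against every adaptive adversary that keeps the energy `∑ (a i)^2` of every coordinate `i` over
the active vectors at most `(r i)^2`, keeps the `i`-th coordinate of the signed sum of size
`r i * polylog (n T)` at every time, with polylogarithmic amortized recourse.
-/

set_option autoImplicit false

namespace Pool.Agent.Results.MP_d59f0b_lc.EnergyBounded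

open Pool.Agent.DynBal

theorem result (n T : ℕ) (hn : 1 ≤ n) (hT : 1 ≤ T) (r : Fin n → ℝ) (hr : ∀ i, 1 ≤ r i) :
    ∃ alg : Algorithm n, ∀ adv : Adversary n,
      (∀ t ≤ T, Legal (history alg adv t) ∧ EnergyLe r (history alg adv t)) →
      (∀ t ≤ T, ∀ i : Fin n,
        |signedSum (history alg adv t) (alg (history alg adv t)) i| ≤
          10 * r i * (1 + Real.log (n * T)) ^ 3) ∧
      (∑ t ∈ Finset.range T,
        (recourse (history alg adv t) (history alg adv (t + 1))
          (alg (history alg adv t)) (alg (history alg adv (t + 1))) : ℝ)) ≤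
          9 * T * (1 + Real.log (n * T)) := by
  classical
  set L := Nat.log 2 T + 1 with hL
  have hTL : T < 2 ^ L := Nat.lt_pow_succ_log_self (by norm_num) T
  obtain ⟨hnum1, hnum2⟩ := numeric hn hT hL
  refine ⟨Pool.Agent.DynBal.alg L r, fun adv hadv => ?_⟩
  set A := Pool.Agent.DynBal.alg L r with hA
  have hOK : ∀ t ≤ T, OK r (history A adv t) := by
    intro t ht
    refine ⟨(hadv t ht).1, fun m => ?_⟩
    rw [history_drop]
    exact (hadv (t - m) (by omega)).2
  constructor
  · intro t ht i
    have hlen : (history A adv t).length < 2 ^ L := by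
      rw [history_length]
      omega
    have hs := (node_inv (L := L) hn hr L le_rfl (history A adv t) (hOK t ht) hlen (by simp)).1
    have h1 := disc_bound (L := L) hn hr (history A adv t) (hOK t ht) hlen i
    have h2 : signedSum (history A adv t) (A (history A adv t)) i =
        ∑ a ∈ active (history A adv t), node L r L (history A adv t) a *
          vec (history A adv t) a i := by
      unfold signedSum
      refine Finset.sum_congr rfl fun a _ => ?_
      rw [hA, sgn_alg hs]
    rw [h2]
    refine h1.trans ?_
    have hri : 0 < r i := lt_of_lt_of_le one_pos (hr i)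
    calc r i * (L * (nu L n + 1)) ≤ r i * (10 * (1 + Real.log (n * T)) ^ 3) := by gcongr
      _ = _ := by ring
  · have hstep : ∀ t ∈ Finset.range T,
        (recourse (history A adv t) (history A adv (t + 1))
          (A (history A adv t)) (A (history A adv (t + 1))) : ℝ) ≤
        ((6 * ∑ i ∈ Finset.range L, (if 2 ^ i ∣ t + 1 then 2 ^ i else 0) : ℕ) : ℝ) := by
      intro t ht
      have ht' : t + 1 ≤ T := Finset.mem_range.1 ht
      obtain ⟨j, m, hodd, hj⟩ := Nat.exists_eq_two_pow_mul_odd (n := t + 1) (by omega)
      have h1 : 2 ^ j ∣ t + 1 := ⟨m, hj⟩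
      have h2 : ¬ 2 ^ (j + 1) ∣ t + 1 := by
        rw [hj, pow_succ]
        intro hc
        have := Nat.dvd_of_mul_dvd_mul_left (by positivity) hc
        exact (Nat.not_even_iff_odd.2 hodd) (even_iff_two_dvd.2 this)
      have hlen : (history A adv (t + 1)).length = t + 1 := history_length A adv (t + 1)
      rw [history_succ] at hlen ⊢
      have h3 := recourse_le (L := L) hn hr (adv (play A adv t)) (history A adv t)
        (by rw [← history_succ]; exact hOK (t + 1) ht') (by rw [hlen]; omega)
        (j := j) (by rw [hlen]; exact h1) (by rw [hlen]; exact h2)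
      refine h3.trans ?_
      have hjL : j < L := by
        have h4 : 2 ^ j ≤ t + 1 := Nat.le_of_dvd (by omega) h1
        exact (Nat.pow_lt_pow_iff_right (by norm_num : 1 < 2)).1
          (lt_of_le_of_lt (h4.trans ht') hTL)
      have h5 : 2 ^ j ≤ ∑ i ∈ Finset.range L, (if 2 ^ i ∣ t + 1 then 2 ^ i else 0) := by
        refine le_trans (le_of_eq ?_) (Finset.single_le_sum
          (f := fun i => if 2 ^ i ∣ t + 1 then 2 ^ i else 0) (fun _ _ => Nat.zero_le _)
          (Finset.mem_range.2 hjL))
        simp only [if_pos h1]
      have h6 : ((2 ^ j : ℕ) : ℝ) ≤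
          ((∑ i ∈ Finset.range L, (if 2 ^ i ∣ t + 1 then 2 ^ i else 0) : ℕ) : ℝ) := by
        exact_mod_cast h5
      rw [Nat.cast_mul]
      rw [Nat.cast_pow] at h6
      have h7 : ((6 : ℕ) : ℝ) = 6 := by norm_num
      have h8 : (((2:ℕ):ℝ)) = 2 := by norm_num
      rw [h7]
      rw [h8] at h6
      linarith
    refine (Finset.sum_le_sum hstep).trans ?_
    rw [← Nat.cast_sum, ← Finset.mul_sum]
    have h9 := sum_pow_dvd T L
    have h10 : ((6 * ∑ t ∈ Finset.range T, ∑ i ∈ Finset.range L,
        (if 2 ^ i ∣ t + 1 then 2 ^ i else 0) : ℕ) : ℝ) ≤ ((6 * (T * L) : ℕ) : ℝ) := by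
      exact_mod_cast Nat.mul_le_mul_left 6 h9
    refine h10.trans ?_
    push_cast
    have hT0 : (0:ℝ) ≤ T := Nat.cast_nonneg _
    have := mul_le_mul_of_nonneg_left hnum1 hT0
    nlinarith

end Pool.Agent.Results.MP_d59f0b_lc.EnergyBounded
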