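import Pool.Agent.DynNeg.F
import Pool.Agent.DynNeg.As

/-!
# Fully dynamic vector balancing: polylogarithmic discrepancy and recourse are impossible

For every `C` there are arbitrarily large `n` and `T ≤ n ^ 3` and ONE adaptive adversary, which
inserts pairwise distinct vectors of Euclidean norm at most `1` and deletes active vectors, such
that every algorithm has discrepancy more than `C * log (n T) ^ C` at some time `t ≤ T`, or total
recourse more than `C * T * log (n T) ^ C`.
-/

set_option autoImplicit false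

namespace Pool.Agent.Results.MP_d59f0b_lc.NoPolylog

open Pool.Agent.DynBal Pool.Agent.DynNeg

private lemma card_active_le {n : ℕ} (h : List (Update n)) : (active h).card ≤ h.length := by
  induction h with
  | nil => simp [active]
  | cons u h ih =>
    cases u with
    | insert b =>
      simp only [active, List.length_cons]
      exact (Finset.card_insert_le _ _).trans (by omega)
    | delete s =>
      simp only [active, List.length_cons]
      exact (Finset.card_le_card (Finset.erase_subset _ _)).trans (by omega)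

private lemma abs_vec_le_one {n : ℕ} (h : List (Update n)) (hl : LegalL2 h) (t : ℕ) (i : Fin n) :
    |vec h t i| ≤ 1 := by
  induction h with
  | nil => simp [vec]
  | cons u h ih =>
    cases u with
    | insert b =>
      simp only [LegalL2] at hl
      simp only [vec]
      split_ifs with h1
      · have h2 : (b i) ^ 2 ≤ ∑ j, (b j) ^ 2 :=
          Finset.single_le_sum (f := fun j => (b j) ^ 2) (fun j _ => sq_nonneg _)
            (Finset.mem_univ i)
        exact abs_le_one_iff_mul_self_le_one.2 (by nlinarith [hl.1])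
      · exact ih hl.2.2
    | delete s =>
      simp only [LegalL2] at hl
      simp only [vec]
      exact ih hl.2

private lemma length_history {n : ℕ} (alg : Algorithm n) (adv : Adversary n) (t : ℕ) :
    (history alg adv t).length = t := by
  unfold history
  rw [List.length_map]
  induction t with
  | zero => rfl
  | succ t ih => simp [play, ih]

private lemma abs_signedSum_le {n : ℕ} (alg : Algorithm n) (adv : Adversary n) (t : ℕ)
    (hl : LegalL2 (history alg adv t)) (σ : ℕ → Bool) (i : Fin n) :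
    |signedSum (history alg adv t) σ i| ≤ t := by
  unfold signedSum
  refine (Finset.abs_sum_le_sum_abs _ _).trans ?_
  calc ∑ s ∈ active (history alg adv t), |sgn (σ s) * vec (history alg adv t) s i|
      ≤ ∑ s ∈ active (history alg adv t), (1 : ℝ) := by
        refine Finset.sum_le_sum fun s _ => ?_
        rw [abs_mul]
        have h1 : |sgn (σ s)| = 1 := by
          unfold sgn
          split_ifs <;> simp
        rw [h1, one_mul]
        exact abs_vec_le_one _ hl s i
    _ = ((active (history alg adv t)).card : ℝ) := by simp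
    _ ≤ t := by
        have := card_active_le (history alg adv t)
        rw [length_history] at this
        exact_mod_cast this

theorem result (C : ℝ) (n₀ : ℕ) :
    ∃ n T : ℕ, n₀ ≤ n ∧ n₀ ≤ T ∧ T ≤ n ^ 3 ∧ ∃ adv : Adversary n, ∀ alg : Algorithm n,
      (∀ t, LegalL2 (history alg adv t)) ∧
      ((∃ t ≤ T, ∃ i : Fin n, C * Real.log (n * T) ^ C <
          |signedSum (history alg adv t) (alg (history alg adv t)) i|) ∨
        C * T * Real.log (n * T) ^ C < ∑ t ∈ Finset.range T,
          (recourse (history alg adv t) (history alg adv (t + 1))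
            (alg (history alg adv t)) (alg (history alg adv (t + 1))) : ℝ)) := by
  -- the bound for one value of the parameter beats the power of the logarithm
  obtain ⟨ℓ, h3, hℓ0, hℓ⟩ : ∃ ℓ : ℕ, 3 ≤ ℓ ∧ (n₀ : ℝ) ^ 3 < 2 ^ ℓ / (64 * Bl ℓ) ∧
      ∀ x : ℝ, 0 ≤ x → x ≤ 100 * (ℓ : ℝ) ^ 2 → C * x ^ C < 2 ^ ℓ / (64 * Bl ℓ) := by
    obtain ⟨D, hD⟩ : ∃ D, D = max C ((n₀ : ℝ) ^ 3 + 1) := ⟨_, rfl⟩
    have hDC : C ≤ D := hD ▸ le_max_left _ _
    have hDn : (n₀ : ℝ) ^ 3 + 1 ≤ D := hD ▸ le_max_right _ _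
    have hn0 : (0 : ℝ) ≤ (n₀ : ℝ) ^ 3 := by positivity
    have hD1 : 1 ≤ D := by linarith
    obtain ⟨ℓ, h3, hℓ⟩ := asymp D (by linarith)
    have hl3 : (3 : ℝ) ≤ ℓ := by exact_mod_cast h3
    have hb : (1 : ℝ) ≤ 100 * (ℓ : ℝ) ^ 2 := by nlinarith
    have hbD : (1 : ℝ) ≤ (100 * (ℓ : ℝ) ^ 2) ^ D := Real.one_le_rpow hb (by linarith)
    have hpos : 0 < 2 ^ ℓ / (64 * Bl ℓ) := by
      have := Bl_pos ℓ
      positivity
    refine ⟨ℓ, h3, ?_, fun x hx0 hx => ?_⟩
    · refine lt_of_lt_of_le ?_ hℓ.le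
      nlinarith
    · rcases lt_or_ge 0 C with hC | hC
      · refine lt_of_le_of_lt ?_ hℓ
        have h1 : x ^ C ≤ (100 * (ℓ : ℝ) ^ 2) ^ C := Real.rpow_le_rpow hx0 hx hC.le
        have h2 : (100 * (ℓ : ℝ) ^ 2) ^ C ≤ (100 * (ℓ : ℝ) ^ 2) ^ D :=
          Real.rpow_le_rpow_of_exponent_le hb hDC
        exact mul_le_mul hDC (h1.trans h2) (Real.rpow_nonneg hx0 _) (by linarith)
      · have h1 : C * x ^ C ≤ 0 := mul_nonpos_of_nonpos_of_nonneg hC (Real.rpow_nonneg hx0 _)
        linarith
  obtain ⟨n, T, hn, hT, hTn, hnT, adv, hadv⟩ := lower ℓ h3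
  have hn1 : (1 : ℝ) ≤ n := by exact_mod_cast hn
  have hT1 : (1 : ℝ) ≤ T := by exact_mod_cast hT
  have hT0 : (0 : ℝ) < T := by linarith
  have hB := Bl_pos ℓ
  have h48 : (2 : ℝ) ^ ℓ / (64 * Bl ℓ) ≤ 2 ^ ℓ / (48 * Bl ℓ) := by
    gcongr
    norm_num
  -- the horizon is large, since discrepancy and recourse per update are at most `T`
  have hTbig : (n₀ : ℝ) ^ 3 < T := by
    rcases hadv (fun _ _ => true) with ⟨hleg, ⟨t, ht, i, hi⟩ | hr⟩
    · have h1 := abs_signedSum_le (fun _ _ => true) adv t (hleg t)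
        ((fun _ _ => true : Algorithm n) (history (fun _ _ => true) adv t)) i
      have h2 : (t : ℝ) ≤ T := by exact_mod_cast ht
      linarith
    · have h1 : ∑ q ∈ Finset.range T,
          (recourse (history (fun _ _ => true) adv q) (history (fun _ _ => true) adv (q + 1))
            ((fun _ _ => true : Algorithm n) (history (fun _ _ => true) adv q))
            ((fun _ _ => true : Algorithm n) (history (fun _ _ => true) adv (q + 1))) : ℝ) = 0 := by
        refine Finset.sum_eq_zero fun q _ => ?_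
        simp [recourse]
      rw [h1] at hr
      have h2 : 0 < (T : ℝ) * (2 ^ ℓ / (48 * Bl ℓ)) := by positivity
      linarith
  have hTn0 : n₀ ^ 3 < T := by exact_mod_cast hTbig
  have hnn0 : n₀ ≤ n := by
    have h1 : n₀ ^ 3 < n ^ 3 := lt_of_lt_of_le hTn0 hTn
    exact (lt_of_pow_lt_pow_left₀ 3 (Nat.zero_le _) h1).le
  have hTT : n₀ ≤ T := by
    have h1 : n₀ ≤ n₀ ^ 3 := Nat.le_self_pow (by norm_num) n₀
    omega
  have hx0 : 0 ≤ Real.log (n * T) := Real.log_nonneg (by nlinarith)
  have hx : Real.log (n * T) ≤ 100 * (ℓ : ℝ) ^ 2 := by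
    have h1 : ((n : ℝ) * T) ≤ 2 ^ (100 * ℓ ^ 2) := by exact_mod_cast hnT
    have h2 : Real.log (n * T) ≤ Real.log (2 ^ (100 * ℓ ^ 2)) :=
      Real.log_le_log (by positivity) h1
    rw [Real.log_pow] at h2
    have h4 : Real.log 2 ≤ 1 := by
      have := Real.log_two_lt_d9
      linarith
    have h5 : (0 : ℝ) ≤ ((100 * ℓ ^ 2 : ℕ) : ℝ) := by positivity
    push_cast at h2 h5
    nlinarith
  have hfin := hℓ _ hx0 hx
  refine ⟨n, T, hnn0, hTT, hTn, adv, fun alg => ⟨(hadv alg).1, ?_⟩⟩
  rcases (hadv alg).2 with ⟨t, ht, i, hi⟩ | h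
  · exact Or.inl ⟨t, ht, i, hfin.trans hi⟩
  · refine Or.inr (lt_of_lt_of_le ?_ h)
    have h5 : C * Real.log (n * T) ^ C < 2 ^ ℓ / (48 * Bl ℓ) := lt_of_lt_of_le hfin h48
    calc C * T * Real.log (n * T) ^ C = T * (C * Real.log (n * T) ^ C) := by ring
      _ < T * (2 ^ ℓ / (48 * Bl ℓ)) := mul_lt_mul_of_pos_left h5 (by linarith)

end Pool.Agent.Results.MP_d59f0b_lc.NoPolylog
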